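import Pool.Agent.H854R3.NE.Cons

/-! Torsion-free rings of a variety are Engel. -/

set_option autoImplicit false

namespace Pool.Agent.W407.NE

open Pool.Agent.H854R3.NE Polynomial

/-- the ring of dual numbers over a ring without one -/
@[ext] structure Dual (R : Type) where
  a : R
  b : R

namespace Dual

variable {R : Type} [NonUnitalRing R]

instance : Add (Dual R) := ⟨fun x y => ⟨x.a + y.a, x.b + y.b⟩⟩
instance : Zero (Dual R) := ⟨⟨0, 0⟩⟩
instance : Neg (Dual R) := ⟨fun x => ⟨-x.a, -x.b⟩⟩
instance : Mul (Dual R) := ⟨fun x y => ⟨x.a * y.a, x.a * y.b + x.b * y.a⟩⟩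

@[simp] theorem add_a (x y : Dual R) : (x + y).a = x.a + y.a := rfl
@[simp] theorem add_b (x y : Dual R) : (x + y).b = x.b + y.b := rfl
@[simp] theorem zero_a : (0 : Dual R).a = 0 := rfl
@[simp] theorem zero_b : (0 : Dual R).b = 0 := rfl
@[simp] theorem neg_a (x : Dual R) : (-x).a = -x.a := rfl
@[simp] theorem neg_b (x : Dual R) : (-x).b = -x.b := rfl
@[simp] theorem mul_a (x y : Dual R) : (x * y).a = x.a * y.a := rfl
@[simp] theorem mul_b (x y : Dual R) : (x * y).b = x.a * y.b + x.b * y.a := rfl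

instance : NonUnitalRing (Dual R) where
  add_assoc x y z := by ext <;> simp [add_assoc]
  zero_add x := by ext <;> simp
  add_zero x := by ext <;> simp
  add_comm x y := by ext <;> simp [add_comm]
  neg_add_cancel x := by ext <;> simp
  left_distrib x y z := by
    ext
    · simp [mul_add]
    · simp only [mul_b, add_a, add_b, mul_add]; abel
  right_distrib x y z := by
    ext
    · simp [add_mul]
    · simp only [mul_b, add_a, add_b, add_mul]; abel
  zero_mul x := by ext <;> simp
  mul_zero x := by ext <;> simp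
  mul_assoc x y z := by
    ext
    · simp [mul_assoc]
    · simp only [mul_b, mul_a, mul_add, add_mul, mul_assoc]; abel
  nsmul := nsmulRec
  zsmul := zsmulRec

end Dual

variable {R : Type} [NonUnitalRing R]

/-- torsion-free -/
def TF (R : Type) [NonUnitalRing R] : Prop := ∀ (m : ℤ), m ≠ 0 → ∀ x : R, m • x = 0 → x = 0

/-- a polynomial with coefficients in a torsion-free group vanishing at all natural numbers -/
theorem poly_zero {U : Type} [AddCommGroup U] (hU : ∀ (m : ℤ), m ≠ 0 → ∀ x : U, m • x = 0 → x = 0)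
    (D : ℕ) (c : Fin D → U) (h : ∀ k : ℕ, ∑ i : Fin D, ((k : ℤ) ^ (i : ℕ)) • c i = 0)
    (j : Fin D) : c j = 0 := by
  let V : Matrix (Fin D) (Fin D) ℤ := Matrix.vandermonde (fun k : Fin D => ((k : ℕ) : ℤ))
  have hV : V.det ≠ 0 := by
    rw [Matrix.det_vandermonde_ne_zero_iff]
    intro a b hab
    have : ((a : ℕ) : ℤ) = ((b : ℕ) : ℤ) := hab
    exact Fin.ext (by exact_mod_cast this)
  apply hU _ hV
  have h1 : ∑ k : Fin D, (V.adjugate j k) • ∑ i : Fin D, (V k i) • c i = 0 := by
    apply Finset.sum_eq_zero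
    intro k _
    have := h (k : ℕ)
    have e : ∑ i : Fin D, (V k i) • c i = ∑ i : Fin D, (((k : ℕ) : ℤ) ^ (i : ℕ)) • c i := rfl
    rw [e, this, smul_zero]
  have h2 : ∑ k : Fin D, (V.adjugate j k) • ∑ i : Fin D, (V k i) • c i =
      ∑ i : Fin D, ((V.adjugate * V) j i) • c i := by
    simp only [Finset.smul_sum, Matrix.mul_apply, Finset.sum_smul, smul_smul]
    rw [Finset.sum_comm]
  rw [h2, Matrix.adjugate_mul] at h1
  simp only [Matrix.smul_apply, Matrix.one_apply, smul_eq_mul, mul_ite, mul_one, mul_zero,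
    ite_smul, zero_smul] at h1
  rw [Finset.sum_ite_eq Finset.univ j] at h1
  simpa using h1

theorem tf_unitization (hR : TF R) (m : ℤ) (hm : m ≠ 0) (x : Unitization ℤ R)
    (h : m • x = 0) : x = 0 := by
  have h1 : m • x.fst = 0 := by rw [← Unitization.fst_smul, h]; rfl
  have h2 : m • x.snd = 0 := by rw [← Unitization.snd_smul, h]; rfl
  apply Unitization.ext
  · exact (smul_eq_zero.1 h1).resolve_left hm
  · exact hR m hm _ h2

section unital

variable {W : Type} [Ring W]

/-- evaluation at a natural number -/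
noncomputable def ev (k : ℕ) : W[X] →+* W :=
  Polynomial.eval₂RingHom' (RingHom.id W) (k : W) (fun a => (Nat.cast_commute k a).symm)

theorem ev_apply (k : ℕ) (f : W[X]) :
    ev k f = ∑ i : Fin (f.natDegree + 1), ((k : ℤ) ^ (i : ℕ)) • f.coeff i := by
  change Polynomial.eval₂ (RingHom.id W) (k : W) f = _
  rw [Polynomial.eval₂_eq_sum_range, Finset.sum_range]
  refine Finset.sum_congr rfl fun i _ => ?_
  rw [zsmul_eq_mul, RingHom.id_apply]
  have : Commute ((k : W) ^ (i : ℕ)) (f.coeff i) :=
    (Nat.cast_commute k (f.coeff i)).pow_left _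
  have e : (((k : ℤ) ^ (i : ℕ) : ℤ) : W) = (k : W) ^ (i : ℕ) := by push_cast; rfl
  rw [e]
  exact this.symm.eq

theorem eq_zero_of_ev (hW : ∀ (m : ℤ), m ≠ 0 → ∀ x : W, m • x = 0 → x = 0) (f : W[X])
    (h : ∀ k : ℕ, ev k f = 0) : f = 0 := by
  apply Polynomial.ext
  intro i
  rw [Polynomial.coeff_zero]
  by_cases hi : i < f.natDegree + 1
  · exact poly_zero hW (f.natDegree + 1)
      (fun i => f.coeff i) (fun k => by rw [← ev_apply]; exact h k) ⟨i, hi⟩
  · exact Polynomial.coeff_eq_zero_of_natDegree_lt (by omega)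

/-- the first two coefficients -/
noncomputable def toDual : W[X] →ₙ+* Dual W where
  toFun f := ⟨f.coeff 0, f.coeff 1⟩
  map_zero' := Dual.ext (Polynomial.coeff_zero 0) (Polynomial.coeff_zero 1)
  map_add' f g := Dual.ext (Polynomial.coeff_add f g 0) (Polynomial.coeff_add f g 1)
  map_mul' f g := by
    apply Dual.ext
    · exact Polynomial.mul_coeff_zero f g
    · change (f * g).coeff 1 = f.coeff 0 * g.coeff 1 + f.coeff 1 * g.coeff 0
      rw [Polynomial.coeff_mul]
      rw [show Finset.HasAntidiagonal.antidiagonal (1 : ℕ) = {(0, 1), (1, 0)} from rfl]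
      rw [Finset.sum_insert (by decide), Finset.sum_singleton]

/-- inclusion -/
def incl (j : R →ₙ+* W) : Dual R →ₙ+* Dual W where
  toFun x := ⟨j x.a, j x.b⟩
  map_zero' := Dual.ext (map_zero j) (map_zero j)
  map_add' x y := Dual.ext (map_add j _ _) (map_add j _ _)
  map_mul' x y := by
    apply Dual.ext
    · exact map_mul j _ _
    · change j (x.a * y.b + x.b * y.a) = j x.a * j y.b + j x.b * j y.a
      rw [map_add, map_mul, map_mul]

theorem dual_models_aux (j : R →ₙ+* W) (hj : Function.Injective j)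
    (hW : ∀ (m : ℤ), m ≠ 0 → ∀ x : W, m • x = 0 → x = 0)
    {E : Set (RTerm × RTerm)} (h : Models E R) : Models E (Dual R) := by
  intro e he v
  have hinj : Function.Injective (incl j) := by
    intro x y hxy
    exact Dual.ext (hj (congrArg Dual.a hxy)) (hj (congrArg Dual.b hxy))
  apply hinj
  rw [val_map, val_map]
  let w : ℕ → W[X] := fun i => C (j (v i).a) + C (j (v i).b) * X
  have hw : (fun i => incl j (v i)) = fun i => toDual (w i) := by
    funext i
    apply Dual.ext
    · change j (v i).a = (w i).coeff 0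
      simp [w]
    · change j (v i).b = (w i).coeff 1
      simp [w]
  rw [hw, ← val_map toDual w, ← val_map toDual w]
  congr 1
  have key : ∀ k : ℕ, ev k (e.1.val w - e.2.val w) = 0 := by
    intro k
    rw [map_sub]
    have e1 : ∀ t : RTerm, ev k (t.val w) = j (t.val (fun i => (v i).a + k • (v i).b)) := by
      intro t
      have h1 : ev k (t.val w) = t.val (fun i => ev k (w i)) :=
        val_map ((ev k : W[X] →+* W) : W[X] →ₙ+* W) w t
      rw [h1, val_map j]
      congr 1
      funext i
      change ev k (C (j (v i).a) + C (j (v i).b) * X) = _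
      rw [map_add, map_mul, map_add j, map_nsmul j]
      have c1 : ∀ u : W, ev k (C u) = u := fun u => Polynomial.eval₂_C _ _
      have c2 : ev k (X : W[X]) = (k : W) := Polynomial.eval₂_X _ _
      rw [c1, c1, c2, nsmul_eq_mul']
    rw [e1, e1, h e he, sub_self]
  exact sub_eq_zero.1 (eq_zero_of_ev hW _ key)

end unital

theorem dual_models (hR : TF R) {E : Set (RTerm × RTerm)} (h : Models E R) :
    Models E (Dual R) := by
  let j : R →ₙ+* Unitization ℤ R :=
    { toFun := fun x => (x : Unitization ℤ R)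
      map_zero' := Unitization.inr_zero ℤ
      map_add' := Unitization.inr_add ℤ
      map_mul' := Unitization.inr_mul ℤ }
  have hj : Function.Injective j := by
    intro a b hab
    have hab' : (a : Unitization ℤ R) = b := hab
    exact Unitization.inr_injective hab'
  exact dual_models_aux (W := Unitization ℤ R) j hj (fun m hm x hx => tf_unitization hR m hm x hx) h

/-- If `z` generates a square zero ideal, then the `n`-th Engel identity holds for `z`. -/
theorem sq_zero_eng {E : Set (RTerm × RTerm)} {n : ℕ} (hD : D2Engel E n) (hR : Models E R)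
    {z y : R} (h0 : z * z = 0) (h1 : ∀ w, z * w * z = 0) : eng z y n = 0 := by
  have hgen := genBy_sub2 z y
  set Z := sx z y
  set Y := sy z y
  let N := TwoSidedIdeal.span ({Z} : Set (sub2 z y))
  have hZN : Z ∈ N := TwoSidedIdeal.subset_span rfl
  have hNN : ∀ {a b : sub2 z y}, a ∈ N → b ∈ N → a * b = 0 := by
    intro a b ha hb
    refine span_mul_zero ?_ ?_ ha hb
    · intro a ha b hb
      rw [Set.mem_singleton_iff] at ha hb
      rw [ha, hb]
      exact Subtype.ext h0
    · intro a ha b hb c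
      rw [Set.mem_singleton_iff] at ha hb
      rw [ha, hb]
      exact Subtype.ext (h1 c)
  obtain ⟨Q, inst, φ, hφ, hker⟩ := exists_quot N
  have hgQ : GenBy (φ Z) (φ Y) := hgen.map φ hφ
  have hZ0 : φ Z = 0 := (hker Z).2 hZN
  have c1 : ∀ a : Q, a * φ Y = φ Y * a := by
    intro a
    refine hgQ.induction (P := fun a => a * φ Y = φ Y * a) ?_ rfl ?_ ?_ ?_ ?_ a
    · rw [hZ0, zero_mul, mul_zero]
    · rw [zero_mul, mul_zero]
    · intro a b ha hb; rw [add_mul, mul_add, ha, hb]
    · intro a ha; rw [neg_mul, mul_neg, ha]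
    · intro a b ha hb; rw [mul_assoc, hb, ← mul_assoc, ha, mul_assoc]
  have c2 : ∀ a b : Q, a * b = b * a := by
    intro a
    refine hgQ.induction (P := fun a => ∀ b, a * b = b * a) ?_ ?_ ?_ ?_ ?_ ?_ a
    · intro b; rw [hZ0, zero_mul, mul_zero]
    · intro b; exact (c1 b).symm
    · intro b; rw [zero_mul, mul_zero]
    · intro a b ha hb c; rw [add_mul, mul_add, ha, hb]
    · intro a ha c; rw [neg_mul, mul_neg, ha]
    · intro a b ha hb c; rw [mul_assoc, hb, ← mul_assoc, ha, mul_assoc]
  have hcomm : ∀ g ∈ Comm (sub2 z y), g ∈ N := by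
    rintro _ ⟨a, b, rfl⟩
    rw [← hker, map_sub, map_mul, map_mul, c2, sub_self]
  have hD2 : D2 (sub2 z y) :=
    ⟨fun a ha b hb => hNN (hcomm a ha) (hcomm b hb),
      fun a ha b hb c => hNN (N.mul_mem_right _ _ (hcomm a ha)) (hcomm b hb)⟩
  have h2 := hD.2 (sub2 z y) (hR.subring _) hD2 Z Y
  have h3 := eng_map (NonUnitalSubringClass.subtype (sub2 z y)) Z Y n
  rw [h2, map_zero] at h3
  exact h3.symm

theorem dual_eng (x y : R) (n : ℕ) :
    eng (⟨0, x⟩ : Dual R) ⟨y, 0⟩ n = ⟨0, eng x y n⟩ := by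
  induction n with
  | zero => rfl
  | succ n ih =>
    change eng (⟨0, x⟩ : Dual R) ⟨y, 0⟩ n * ⟨y, 0⟩ - ⟨y, 0⟩ * eng (⟨0, x⟩ : Dual R) ⟨y, 0⟩ n =
      (⟨0, eng x y n * y - y * eng x y n⟩ : Dual R)
    rw [ih, sub_eq_add_neg, sub_eq_add_neg]
    apply Dual.ext
    · simp
    · simp

/-- Torsion-free rings of the variety satisfy the `n`-th Engel identity. -/
theorem tf_eng {E : Set (RTerm × RTerm)} {n : ℕ} (hD : D2Engel E n) (hR : Models E R)
    (hT : TF R) (x y : R) : eng x y n = 0 := by
  have h1 := dual_models hT hR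
  have h2 := sq_zero_eng hD h1 (z := (⟨0, x⟩ : Dual R)) (y := ⟨y, 0⟩)
    (by apply Dual.ext <;> simp) (by intro w; apply Dual.ext <;> simp)
  rw [dual_eng] at h2
  exact congrArg Dual.b h2

end Pool.Agent.W407.NE
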