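import Pool.Agent.H854R3.NE.FinRed
import Pool.Agent.W407.NE.TorFree

/-! Minimal non-Engel varieties of associative rings are Cross varieties. -/

set_option autoImplicit false

namespace Pool.Agent.W407.NE

open Pool.Agent.H854R3.NE

variable {R : Type} [NonUnitalRing R]

theorem eng_mem {I : TwoSidedIdeal R} {z : R} (hz : z ∈ I) (y : R) (n : ℕ) : eng z y n ∈ I := by
  induction n with
  | zero => exact hz
  | succ n ih => exact I.sub_mem (I.mul_mem_right _ _ ih) (I.mul_mem_left _ _ ih)

/-- A non-Engel pair survives in a prime quotient. -/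
theorem exists_prime_eng {E : Set (RTerm × RTerm)} {n : ℕ} (hD : D2Engel E n)
    (hR : Models E R) {x y : R} (hne : ∀ N, eng x y N ≠ 0) :
    ∃ (Q : Type) (_ : NonUnitalRing Q) (φ : R →ₙ+* Q), Function.Surjective φ ∧ PrimeR Q ∧
      ∀ N, eng (φ x) (φ y) N ≠ 0 := by
  obtain ⟨I, hI, hmax⟩ := exists_max_ideal (fun I : TwoSidedIdeal R => ∀ N, eng x y N ∉ I)
    (by intro N; rw [TwoSidedIdeal.mem_bot]; exact hne N)
    (by
      intro c _ _ hP U hU N hN
      obtain ⟨I, hI, h⟩ := (hU _).1 hN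
      exact hP I hI N h)
  obtain ⟨Q, inst, φ, hφ, hker⟩ := exists_quot I
  have hQ : Models E Q := hR.of_surjective φ hφ
  have hneQ : ∀ N, eng (φ x) (φ y) N ≠ 0 := by
    intro N h
    rw [← eng_map, hker] at h
    exact hI N h
  -- every non-zero ideal contains an iterated commutator
  have hJ : ∀ (J : TwoSidedIdeal Q) (c : Q), c ∈ J → c ≠ 0 → ∃ N, eng (φ x) (φ y) N ∈ J := by
    intro J c hc hc0
    let J' : TwoSidedIdeal R := TwoSidedIdeal.mk' {a | φ a ∈ J}
      (by change φ 0 ∈ J; rw [map_zero]; exact J.zero_mem)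
      (by intro a b ha hb; change φ (a + b) ∈ J; rw [map_add]; exact J.add_mem ha hb)
      (by intro a ha; change φ (-a) ∈ J; rw [map_neg]; exact J.neg_mem ha)
      (by intro a b hb; change φ (a * b) ∈ J; rw [map_mul]; exact J.mul_mem_left _ _ hb)
      (by intro a b ha; change φ (a * b) ∈ J; rw [map_mul]; exact J.mul_mem_right _ _ ha)
    have hJ' : ∀ a, a ∈ J' ↔ φ a ∈ J := fun a => TwoSidedIdeal.mem_mk' _ _ _ _ _ _ a
    by_contra hcon
    push Not at hcon
    have h1 := hmax J' (fun N hN => hcon N (by rw [← eng_map]; exact (hJ' _).1 hN))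
      (fun a ha => (hJ' a).2 (by rw [(hker a).2 ha]; exact J.zero_mem))
    obtain ⟨a, rfl⟩ := hφ c
    apply hc0
    rw [hker, ← h1]
    exact (hJ' a).2 hc
  -- semiprime, first step
  have sp1 : ∀ c : Q, c * c = 0 → (∀ r, c * r * c = 0) → c = 0 := by
    intro c hcc hcrc
    by_contra hc0
    have hsub : c ∈ TwoSidedIdeal.span ({c} : Set Q) := TwoSidedIdeal.subset_span rfl
    obtain ⟨N, hN⟩ := hJ _ c hsub hc0
    have hzero : ∀ {a b : Q}, a ∈ TwoSidedIdeal.span ({c} : Set Q) →
        b ∈ TwoSidedIdeal.span ({c} : Set Q) → a * b = 0 := by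
      intro a b ha hb
      refine span_mul_zero ?_ ?_ ha hb
      · intro a ha b hb
        rw [Set.mem_singleton_iff] at ha hb
        rw [ha, hb, hcc]
      · intro a ha b hb r
        rw [Set.mem_singleton_iff] at ha hb
        rw [ha, hb, hcrc]
    have h1 := sq_zero_eng hD hQ (z := eng (φ x) (φ y) N) (y := φ y) (hzero hN hN)
      (fun w => hzero (TwoSidedIdeal.mul_mem_right _ _ _ hN) hN)
    rw [← eng_add] at h1
    exact hneQ _ h1
  have sp : ∀ c : Q, (∀ r, c * r * c = 0) → c = 0 := by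
    intro c hc
    have h1 : c * c = 0 := by
      apply sp1
      · have : c * c * (c * c) = c * (c * c) * c := by simp only [mul_assoc]
        rw [this, hc]
      · intro r
        have : c * c * r * (c * c) = c * (c * r * c) * c := by simp only [mul_assoc]
        rw [this, hc]
    exact sp1 c h1 hc
  refine ⟨Q, inst, φ, hφ, ?_, hneQ⟩
  intro a b hab
  by_contra hcon
  push Not at hcon
  obtain ⟨ha, hb⟩ := hcon
  obtain ⟨N1, h1⟩ := hJ (TwoSidedIdeal.span {a}) a (TwoSidedIdeal.subset_span rfl) ha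
  obtain ⟨N2, h2⟩ := hJ (TwoSidedIdeal.span {b}) b (TwoSidedIdeal.subset_span rfl) hb
  have m1 : eng (φ x) (φ y) (N1 + N2) ∈ TwoSidedIdeal.span ({a} : Set Q) := by
    rw [eng_add]; exact eng_mem h1 _ _
  have m2 : eng (φ x) (φ y) (N1 + N2) ∈ TwoSidedIdeal.span ({b} : Set Q) := by
    rw [add_comm, eng_add]; exact eng_mem h2 _ _
  -- the product of the ideals
  have k1 : ∀ m ∈ TwoSidedIdeal.span ({a} : Set Q), ∀ r, m * r * b = 0 := by
    let K1 : TwoSidedIdeal Q := TwoSidedIdeal.mk' {m | ∀ r, m * r * b = 0}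
      (by intro r; rw [zero_mul, zero_mul])
      (by intro u v hu hv r; rw [add_mul, add_mul, hu, hv, add_zero])
      (by intro u hu r; rw [neg_mul, neg_mul, hu, neg_zero])
      (by intro u v hv r; rw [mul_assoc u v r, mul_assoc u, hv, mul_zero])
      (by intro u v hu r; rw [mul_assoc u v r]; exact hu (v * r))
    have hK1 : ∀ m, m ∈ K1 ↔ ∀ r, m * r * b = 0 := fun m => TwoSidedIdeal.mem_mk' _ _ _ _ _ _ m
    have hle : TwoSidedIdeal.span ({a} : Set Q) ≤ K1 := by
      rw [TwoSidedIdeal.span_le]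
      intro u hu
      rw [Set.mem_singleton_iff] at hu
      subst hu
      exact (hK1 _).2 hab
    intro m hm
    exact (hK1 m).1 (hle hm)
  have k2 : ∀ m ∈ TwoSidedIdeal.span ({a} : Set Q), ∀ u ∈ TwoSidedIdeal.span ({b} : Set Q),
      ∀ r, m * r * u = 0 := by
    intro m hm
    let K2 : TwoSidedIdeal Q := TwoSidedIdeal.mk' {u | ∀ r, m * r * u = 0}
      (by intro r; rw [mul_zero])
      (by intro u v hu hv r; rw [mul_add, hu, hv, add_zero])
      (by intro u hu r; rw [mul_neg, hu, neg_zero])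
      (by intro u v hv r; rw [← mul_assoc, mul_assoc m r u]; exact hv (r * u))
      (by intro u v hu r; rw [← mul_assoc, hu, zero_mul])
    have hK2 : ∀ u, u ∈ K2 ↔ ∀ r, m * r * u = 0 := fun u => TwoSidedIdeal.mem_mk' _ _ _ _ _ _ u
    have hle : TwoSidedIdeal.span ({b} : Set Q) ≤ K2 := by
      rw [TwoSidedIdeal.span_le]
      intro u hu
      rw [Set.mem_singleton_iff] at hu
      subst hu
      exact (hK2 _).2 (k1 m hm)
    intro u hu
    exact (hK2 u).1 (hle hu)
  exact hneQ _ (sp _ (fun r => k2 _ m1 _ m2 r))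

theorem tf_of_primes (h : ∀ p : ℕ, p.Prime → ∀ x : R, p • x = 0 → x = 0) : TF R := by
  have h1 : ∀ m : ℕ, m ≠ 0 → ∀ x : R, m • x = 0 → x = 0 := by
    intro m
    induction m using Nat.recOnMul with
    | zero => intro h0; exact absurd rfl h0
    | one => intro _ x hx; rwa [one_smul] at hx
    | prime p hp => intro _ x hx; exact h p hp x hx
    | mul a b ha hb =>
      intro hab x hx
      rw [mul_smul] at hx
      exact hb (right_ne_zero_of_mul hab) x (ha (left_ne_zero_of_mul hab) _ hx)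
  intro m hm x hx
  rcases Int.natAbs_eq m with h2 | h2
  · rw [h2, natCast_zsmul] at hx
    exact h1 _ (Int.natAbs_ne_zero.2 hm) x hx
  · rw [h2, neg_smul, natCast_zsmul, neg_eq_zero] at hx
    exact h1 _ (Int.natAbs_ne_zero.2 hm) x hx

/-- If all the subvarieties given by the pairs `(p, q)` are Engel, then so is the variety. -/
theorem engel_of {E : Set (RTerm × RTerm)}
    (hW : ∀ p k : ℕ, p.Prime → 1 ≤ k → IsEngel (E ∪ WId p (p ^ k))) : IsEngel E := by
  by_contra hcon
  obtain ⟨n, hD⟩ := exists_D2Engel hW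
  obtain ⟨A, _, x, y, hA, hne⟩ := exists_of_not_engel hcon
  obtain ⟨Q, _, φ, hφ, hprime, hneQ⟩ := exists_prime_eng hD hA hne
  have hQ : Models E Q := hA.of_surjective φ hφ
  by_cases hchar : ∀ p : ℕ, p.Prime → ∀ x : Q, p • x = 0 → x = 0
  · exact hneQ n (tf_eng hD hQ (tf_of_primes hchar) _ _)
  · push Not at hchar
    obtain ⟨p, hp, z, hz, hz0⟩ := hchar
    have : Fact p.Prime := ⟨hp⟩
    have hpQ : ∀ s : Q, p • s = 0 := by
      intro s
      refine (hprime z (p • s) fun r => ?_).resolve_left hz0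
      rw [mul_smul_comm, ← smul_mul_assoc, ← smul_mul_assoc, hz, zero_mul, zero_mul]
    have h1 := prime_comm hD (hW p 1 hp le_rfl) hQ hpQ hprime (φ x) (φ y)
    apply hneQ 1
    change φ x * φ y - φ y * φ x = 0
    rw [h1, sub_self]

/-- Every minimal non-Engel variety of associative rings is a Cross variety. -/
theorem main {E : Set (RTerm × RTerm)} (hE : MinimalNonEngel E) : IsCross E := by
  obtain ⟨h1, h2⟩ := hE
  by_contra hcross
  apply h1
  apply engel_of
  intro p k hp hk
  have : Fact p.Prime := ⟨hp⟩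
  apply h2
  · intro R _ hR e he
    exact hR e (Or.inl he)
  · intro hsub
    apply hcross
    apply cross_of_sub (p := p) (k := k) hk
    intro R _ hR e he
    exact hsub R hR e (Or.inr he)

end Pool.Agent.W407.NE
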